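import Mathlib

namespace Pool.Agent.R252.HB

open Complex Metric Set

/-- the branch of the square root of `1 - w^2` with positive real part -/
noncomputable def s (w : ℂ) : ℂ := Complex.exp (Complex.log (1 - w ^ 2) / 2)

/-- the inverse of `t ↦ 2t/(1+t^2)` -/
noncomputable def g (w : ℂ) : ℂ := w / (1 + s w)

lemma one_sub_sq_mem {w : ℂ} (hw : ‖w‖ < 1) : 1 - w ^ 2 ∈ slitPlane := by
  left
  have h1 : ‖w ^ 2‖ < 1 := by
    rw [norm_pow]; nlinarith [norm_nonneg w]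
  have h2 : (w ^ 2).re ≤ ‖w ^ 2‖ := Complex.re_le_norm _
  simp only [Complex.sub_re, Complex.one_re]
  linarith

lemma s_sq {w : ℂ} (hw : ‖w‖ < 1) : s w ^ 2 = 1 - w ^ 2 := by
  have h0 : 1 - w ^ 2 ≠ 0 := slitPlane_ne_zero (one_sub_sq_mem hw)
  rw [s, ← Complex.exp_nat_mul]
  have : ((2 : ℕ) : ℂ) * (Complex.log (1 - w ^ 2) / 2) = Complex.log (1 - w ^ 2) := by
    push_cast; ring
  rw [this, Complex.exp_log h0]

lemma s_re_pos {w : ℂ} (hw : ‖w‖ < 1) : 0 < (s w).re := by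
  have hm := one_sub_sq_mem hw
  rw [s, Complex.exp_re]
  apply mul_pos (Real.exp_pos _)
  have him : (Complex.log (1 - w ^ 2) / 2).im = Complex.arg (1 - w ^ 2) / 2 := by
    have : (Complex.log (1 - w ^ 2) / 2) = (Complex.log (1 - w ^ 2)) / ((2 : ℝ) : ℂ) := by
      norm_num
    rw [this, Complex.div_ofReal_im, Complex.log_im]
  rw [him]
  apply Real.cos_pos_of_mem_Ioo
  have h1 := Complex.neg_pi_lt_arg (1 - w ^ 2)
  have h2 : Complex.arg (1 - w ^ 2) < Real.pi :=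
    lt_of_le_of_ne (Complex.arg_le_pi _) (mem_slitPlane_iff_arg.1 hm).1
  constructor <;> linarith

lemma one_add_s_ne {w : ℂ} (hw : ‖w‖ < 1) : 1 + s w ≠ 0 := by
  intro h
  have := congrArg Complex.re h
  simp at this
  linarith [s_re_pos hw]

lemma g_eq {w : ℂ} (hw : ‖w‖ < 1) : w * (1 + g w ^ 2) = 2 * g w := by
  have h1 := one_add_s_ne hw
  have h2 := s_sq hw
  rw [g]
  field_simp
  linear_combination w * h2

lemma norm_g_lt {w : ℂ} (hw : ‖w‖ < 1) : ‖g w‖ < 1 := by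
  have h1 := s_re_pos hw
  have h2 : 1 < ‖1 + s w‖ := by
    have : (1 + s w).re ≤ ‖1 + s w‖ := Complex.re_le_norm _
    simp at this
    linarith
  rw [g, norm_div, div_lt_one (by linarith)]
  linarith

/-- the key identity -/
lemma key_identity {t w : ℂ} (h : w * (1 + t ^ 2) = 2 * t) :
    (1 - ‖t‖ ^ 2) ^ 2 - 4 * t.im ^ 2 = ‖1 + t ^ 2‖ ^ 2 * (1 - ‖w‖ ^ 2) := by
  have h1 : ‖w‖ ^ 2 * ‖1 + t ^ 2‖ ^ 2 = 4 * ‖t‖ ^ 2 := by
    have := congrArg (fun z => ‖z‖ ^ 2) h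
    simp only [norm_mul] at this
    rw [mul_pow] at this
    rw [this]
    simp
    ring
  have h2 : ‖1 + t ^ 2‖ ^ 2 * (1 - ‖w‖ ^ 2) = ‖1 + t ^ 2‖ ^ 2 - 4 * ‖t‖ ^ 2 := by
    rw [← h1]; ring
  rw [h2]
  rw [Complex.sq_norm, Complex.sq_norm, Complex.normSq_apply, Complex.normSq_apply]
  simp [pow_two]
  ring

lemma one_add_sq_ne {t : ℂ} (ht : ‖t‖ < 1) : 1 + t ^ 2 ≠ 0 := by
  intro h
  have h1 : t ^ 2 = -1 := by linear_combination h
  have h2 : ‖t‖ ^ 2 = 1 := by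
    rw [← norm_pow, h1]; simp
  nlinarith [norm_nonneg t]

lemma g_region {w : ℂ} (hw : ‖w‖ < 1) : ‖g w‖ ^ 2 + 2 * |(g w).im| < 1 := by
  have h1 := key_identity (g_eq hw)
  have h2 := norm_g_lt hw
  have h3 : 0 < ‖1 + g w ^ 2‖ := norm_pos_iff.2 (one_add_sq_ne h2)
  have h4 : 0 < ‖1 + g w ^ 2‖ ^ 2 * (1 - ‖w‖ ^ 2) := by
    apply mul_pos (by positivity)
    nlinarith [norm_nonneg w]
  rw [← h1] at h4
  have h5 : 0 < 1 - ‖g w‖ ^ 2 := by nlinarith [norm_nonneg (g w)]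
  have h6 : (2 * |(g w).im|) ^ 2 < (1 - ‖g w‖ ^ 2) ^ 2 := by
    rw [mul_pow, sq_abs]; linarith
  have h7 := lt_of_pow_lt_pow_left₀ 2 h5.le h6
  linarith

lemma g_unique {w t : ℂ} (hw : ‖w‖ < 1) (ht : ‖t‖ < 1) (h : w * (1 + t ^ 2) = 2 * t) :
    g w = t := by
  have h1 := g_eq hw
  have h2 := norm_g_lt hw
  have h3 : (t - g w) * (1 - t * g w) = 0 := by
    by_cases hw0 : w = 0
    · subst hw0
      have : t = 0 := by
        have : 2 * t = 0 := by rw [← h]; ring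
        simpa using this
      have h' : g 0 = 0 := by simp [g]
      simp [this, h']
    · have : w * ((t - g w) * (1 - t * g w)) = 0 := by
        have e1 : w * ((t - g w) * (1 - t * g w)) * 2
            = 2 * w * (2 * t * (1 + g w ^ 2) - 2 * g w * (1 + t ^ 2)) / 2 := by ring
        have e2 : 2 * t * (1 + g w ^ 2) - 2 * g w * (1 + t ^ 2) = 0 := by
          rw [← h, ← h1]; ring
        rw [e2] at e1
        have e3 : w * ((t - g w) * (1 - t * g w)) * 2 = 0 := by rw [e1]; ring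
        exact (mul_eq_zero.1 e3).resolve_right two_ne_zero
      exact (mul_eq_zero.1 this).resolve_left hw0
  rcases mul_eq_zero.1 h3 with h4 | h4
  · exact (sub_eq_zero.1 h4).symm
  · exfalso
    have h5 : t * g w = 1 := (sub_eq_zero.1 h4).symm
    have h6 : ‖t‖ * ‖g w‖ = 1 := by rw [← norm_mul, h5, norm_one]
    nlinarith [norm_nonneg t, norm_nonneg (g w)]

lemma g_inj {w v : ℂ} (hw : ‖w‖ < 1) (hv : ‖v‖ < 1) (h : g w = g v) : w = v := by
  have h1 := g_eq hw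
  have h2 := g_eq hv
  rw [← h] at h2
  have h3 := one_add_sq_ne (norm_g_lt hw)
  have h4 : w * (1 + g w ^ 2) = v * (1 + g w ^ 2) := by rw [h1, h2]
  exact mul_right_cancel₀ h3 h4

lemma s_differentiableAt {w : ℂ} (hw : ‖w‖ < 1) : DifferentiableAt ℂ s w := by
  have hm := one_sub_sq_mem hw
  have h1 : DifferentiableAt ℂ (fun z : ℂ => 1 - z ^ 2) w :=
    (differentiableAt_const _).sub (differentiableAt_id.pow 2)
  have h2 : DifferentiableAt ℂ (fun z : ℂ => Complex.log (1 - z ^ 2)) w :=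
    h1.clog hm
  exact (h2.div_const 2).cexp

lemma g_differentiableAt {w : ℂ} (hw : ‖w‖ < 1) : DifferentiableAt ℂ g w := by
  have h1 : DifferentiableAt ℂ (fun z : ℂ => 1 + s z) w :=
    (differentiableAt_const _).add (s_differentiableAt hw)
  have h2 : DifferentiableAt ℂ (fun z : ℂ => z / (1 + s z)) w :=
    DifferentiableAt.fun_div differentiableAt_id h1 (one_add_s_ne hw)
  exact h2

lemma g_deriv_ne {w : ℂ} (hw : ‖w‖ < 1) : deriv g w ≠ 0 := by
  intro h0
  have hd : HasDerivAt g (deriv g w) w := (g_differentiableAt hw).hasDerivAt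
  have h1 : HasDerivAt (fun z => z * (1 + g z ^ 2))
      (1 * (1 + g w ^ 2) + w * (0 + (2 : ℕ) * g w ^ (2 - 1) * deriv g w)) w :=
    (hasDerivAt_id w).mul ((hasDerivAt_const w (1 : ℂ)).add (hd.pow 2))
  have h2 : HasDerivAt (fun z => 2 * g z) (2 * deriv g w) w := hd.const_mul 2
  have h3 : (fun z => z * (1 + g z ^ 2)) =ᶠ[nhds w] (fun z => 2 * g z) := by
    have : ball (0 : ℂ) 1 ∈ nhds w := isOpen_ball.mem_nhds (by simpa using hw)
    filter_upwards [this] with z hz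
    exact g_eq (by simpa using hz)
  have h4 := (h1.congr_of_eventuallyEq h3.symm).unique h2
  rw [h0] at h4
  simp at h4
  exact one_add_sq_ne (norm_g_lt hw) h4

lemma g_analyticOnNhd : AnalyticOnNhd ℂ g (ball 0 1) := by
  apply DifferentiableOn.analyticOnNhd _ isOpen_ball
  intro z hz
  exact (g_differentiableAt (by simpa using hz)).differentiableWithinAt

end Pool.Agent.R252.HB
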