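import Mathlib
import Pool.Agent.R252.HB.Gmap

namespace Pool.Agent.R252.HB

open Complex Metric Set MeasureTheory

/-- the harmonic map -/
noncomputable def f (w : ℂ) : ℂ := (13 / 8 : ℂ) * g w + (starRingEnd ℂ) ((-5 / 8 : ℂ) * g w)

lemma f_re (w : ℂ) : (f w).re = (g w).re := by
  have h1 : (13 / 8 : ℂ) = ((13 / 8 : ℝ) : ℂ) := by norm_num
  have h2 : (-5 / 8 : ℂ) = ((-5 / 8 : ℝ) : ℂ) := by norm_num
  rw [f, h1, h2, Complex.add_re, Complex.conj_re, Complex.re_ofReal_mul, Complex.re_ofReal_mul]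
  ring

lemma f_im (w : ℂ) : (f w).im = (9 / 4) * (g w).im := by
  have h1 : (13 / 8 : ℂ) = ((13 / 8 : ℝ) : ℂ) := by norm_num
  have h2 : (-5 / 8 : ℂ) = ((-5 / 8 : ℝ) : ℂ) := by norm_num
  rw [f, h1, h2, Complex.add_im, Complex.conj_im, Complex.im_ofReal_mul, Complex.im_ofReal_mul]
  ring

lemma f_injOn : InjOn f (ball 0 1) := by
  intro w hw v hv h
  have hw' : ‖w‖ < 1 := by simpa using hw
  have hv' : ‖v‖ < 1 := by simpa using hv
  apply g_inj hw' hv'
  have h1 := congrArg Complex.re h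
  have h2 := congrArg Complex.im h
  rw [f_re, f_re] at h1
  rw [f_im, f_im] at h2
  apply Complex.ext h1
  linarith

lemma f_mapsTo : MapsTo f (ball 0 1) (ball 0 1) := by
  intro w hw
  have hw' : ‖w‖ < 1 := by simpa using hw
  have h1 := g_region hw'
  rw [mem_ball_zero_iff]
  have h2 : ‖f w‖ ^ 2 < 1 := by
    rw [Complex.sq_norm, Complex.normSq_apply, f_re, f_im]
    rw [Complex.sq_norm, Complex.normSq_apply] at h1
    have h3 : (g w).im * (g w).im = |(g w).im| * |(g w).im| := (abs_mul_abs_self _).symm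
    have h4 := abs_nonneg (g w).im
    have h5 : |(g w).im| ≤ 32 / 65 := by
      by_contra h
      push Not at h
      nlinarith [mul_self_nonneg (g w).re]
    nlinarith [mul_self_nonneg (g w).re]
  nlinarith [norm_nonneg (f w)]

lemma f_jac {w : ℂ} (hw : ‖w‖ < 1) :
    0 < ‖deriv (fun z => (13 / 8 : ℂ) * g z) w‖ ^ 2
      - ‖deriv (fun z => (-5 / 8 : ℂ) * g z) w‖ ^ 2 := by
  have hd : HasDerivAt g (deriv g w) w := (g_differentiableAt hw).hasDerivAt
  rw [(hd.const_mul (13 / 8 : ℂ)).deriv, (hd.const_mul (-5 / 8 : ℂ)).deriv]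
  rw [norm_mul, norm_mul]
  have h1 : ‖(13 / 8 : ℂ)‖ = 13 / 8 := by simp
  have h2 : ‖(-5 / 8 : ℂ)‖ = 5 / 8 := by simp
  rw [h1, h2]
  have h3 : 0 < ‖deriv g w‖ := norm_pos_iff.2 (g_deriv_ne hw)
  nlinarith [mul_pos h3 h3]

/-- the set -/
def E : Set ℂ := {w | ‖w‖ ^ 2 + (15 / 4) * |w.im| < 1}

/-- compact exhaustion -/
def K (n : ℕ) : Set ℂ := {w | ‖w‖ ^ 2 + (15 / 4) * |w.im| ≤ 1 - 1 / ((n : ℝ) + 1)}

lemma K_subset_E (n : ℕ) : K n ⊆ E := by
  intro w hw
  have : (0 : ℝ) < 1 / ((n : ℝ) + 1) := by positivity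
  simp only [K, E, mem_ofPred_eq] at *
  linarith

lemma E_subset_ball : E ⊆ ball 0 1 := by
  intro w hw
  simp only [E, mem_ofPred_eq] at hw
  rw [mem_ball_zero_iff]
  nlinarith [abs_nonneg w.im, norm_nonneg w]

lemma K_mono : Monotone K := by
  intro m n hmn w hw
  simp only [K, mem_ofPred_eq] at *
  have h1 : (m : ℝ) ≤ n := by exact_mod_cast hmn
  have h2 : 1 / ((n : ℝ) + 1) ≤ 1 / ((m : ℝ) + 1) := by
    apply one_div_le_one_div_of_le (by positivity); linarith
  linarith

lemma K_compact (n : ℕ) : IsCompact (K n) := by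
  apply Metric.isCompact_of_isClosed_isBounded
  · apply isClosed_le
    · fun_prop
    · fun_prop
  · apply isBounded_ball.subset ((K_subset_E n).trans E_subset_ball)

lemma iUnion_K : ⋃ n, K n = E := by
  apply subset_antisymm (iUnion_subset K_subset_E)
  intro w hw
  simp only [E, mem_ofPred_eq] at hw
  obtain ⟨n, hn⟩ := exists_nat_one_div_lt (sub_pos.2 hw)
  rw [mem_iUnion]
  refine ⟨n, ?_⟩
  simp only [K, mem_ofPred_eq]
  linarith

/-- the parabolic region -/
def P : Set ℂ := {z | z.re ∈ Ioo (-1 : ℝ) 1 ∧ |z.im| < (18 / 65) * (1 - z.re ^ 2)}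

lemma P_subset : P ⊆ f '' E := by
  intro z hz
  obtain ⟨⟨hx1, hx2⟩, hy⟩ := hz
  set t : ℂ := ⟨z.re, (4 / 9) * z.im⟩ with ht
  have htre : t.re = z.re := rfl
  have htim : t.im = (4 / 9) * z.im := rfl
  have hxx : z.re ^ 2 < 1 := by nlinarith
  have habs : |t.im| = (4 / 9) * |z.im| := by
    rw [htim, abs_mul]; norm_num
  have h1 : ‖t‖ ^ 2 + 8 * |t.im| < 1 := by
    rw [Complex.sq_norm, Complex.normSq_apply, htre]
    have h3 : t.im * t.im = |t.im| * |t.im| := (abs_mul_abs_self _).symm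
    rw [h3, habs]
    have h4 := abs_nonneg z.im
    nlinarith [mul_nonneg h4 h4, mul_self_nonneg z.re]
  have h2 : ‖t‖ < 1 := by nlinarith [abs_nonneg t.im, norm_nonneg t]
  have hne := one_add_sq_ne h2
  set w : ℂ := 2 * t / (1 + t ^ 2) with hw
  have hwt : w * (1 + t ^ 2) = 2 * t := by rw [hw]; field_simp
  have hkey := key_identity hwt
  set D : ℝ := 1 - ‖t‖ ^ 2 with hD
  set N : ℝ := ‖1 + t ^ 2‖ ^ 2 with hN
  have hNpos : 0 < N := by
    have := norm_pos_iff.2 hne
    positivity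
  have hwim : w.im * N = 2 * t.im * D := by
    have e1 : w * ((‖1 + t ^ 2‖ ^ 2 : ℝ) : ℂ) = 2 * t * (starRingEnd ℂ) (1 + t ^ 2) := by
      rw [← hwt, mul_assoc, Complex.mul_conj, Complex.normSq_eq_norm_sq]
    have e2 := congrArg Complex.im e1
    rw [Complex.im_mul_ofReal] at e2
    rw [hN, e2, hD, Complex.sq_norm, Complex.normSq_apply]
    simp [pow_two]
    ring
  have hDpos : 0 < D := by nlinarith [norm_nonneg t]
  have hwimabs : |w.im| * N = 2 * |t.im| * D := by
    have := congrArg abs hwim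
    rw [abs_mul, abs_mul, abs_mul, abs_of_pos hNpos, abs_of_pos hDpos] at this
    simpa using this
  have hwE : w ∈ E := by
    simp only [E, mem_ofPred_eq]
    have hsq : t.im ^ 2 = |t.im| ^ 2 := (sq_abs _).symm
    have h8 : 0 < D - 8 * |t.im| := by rw [hD]; linarith
    have h9 : 0 < D + |t.im| / 2 := by have := abs_nonneg t.im; linarith
    have h10 : 0 < (D - 8 * |t.im|) * (D + |t.im| / 2) := mul_pos h8 h9
    have h11 : 0 < N * (1 - ‖w‖ ^ 2 - 15 / 4 * |w.im|) := by
      have : N * (1 - ‖w‖ ^ 2 - 15 / 4 * |w.im|)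
          = (D - 8 * |t.im|) * (D + |t.im| / 2) := by
        calc N * (1 - ‖w‖ ^ 2 - 15 / 4 * |w.im|)
            = N * (1 - ‖w‖ ^ 2) - 15 / 4 * (|w.im| * N) := by ring
          _ = (D ^ 2 - 4 * |t.im| ^ 2) - 15 / 4 * (2 * |t.im| * D) := by
              rw [← hkey, hwimabs, hsq]
          _ = (D - 8 * |t.im|) * (D + |t.im| / 2) := by ring
      rw [this]; exact h10
    have h12 := (mul_pos_iff_of_pos_left hNpos).1 h11
    linarith
  refine ⟨w, hwE, ?_⟩
  have hwn : ‖w‖ < 1 := by simpa using E_subset_ball hwE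
  have hg : g w = t := g_unique hwn h2 hwt
  apply Complex.ext
  · rw [f_re, hg, htre]
  · rw [f_im, hg, htim]; ring

lemma volume_P : volume P = ENNReal.ofReal (48 / 65) := by
  have hP : P = Complex.measurableEquivRealProd ⁻¹'
      (regionBetween (fun x => -((18 / 65) * (1 - x ^ 2))) (fun x => (18 / 65) * (1 - x ^ 2))
        (Ioo (-1 : ℝ) 1)) := by
    ext z
    simp only [P, mem_ofPred_eq, mem_preimage, regionBetween, Complex.measurableEquivRealProd_apply,
      mem_Ioo, abs_lt]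
  rw [hP, Complex.volume_preserving_equiv_real_prod.measure_preimage_equiv,
    MeasureTheory.Measure.volume_eq_prod]
  rw [volume_regionBetween_eq_integral]
  · congr 1
    have h0 : ∀ x : ℝ, ((fun x : ℝ => (18 / 65) * (1 - x ^ 2) : ℝ → ℝ) - (fun x : ℝ =>
        -((18 / 65) * (1 - x ^ 2)) : ℝ → ℝ)) x = (36 / 65) * (1 - x ^ 2) := by
      intro x
      simp only [Pi.sub_apply]
      ring
    rw [integral_congr_ae (Filter.Eventually.of_forall h0)]
    rw [← integral_Ioc_eq_integral_Ioo, ← intervalIntegral.integral_of_le (by norm_num)]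
    rw [intervalIntegral.integral_const_mul, intervalIntegral.integral_sub]
    · simp; norm_num
    · exact intervalIntegrable_const
    · exact (continuous_pow 2).intervalIntegrable _ _
  · apply (Continuous.integrableOn_Icc (by fun_prop)).mono_set Ioo_subset_Icc_self
  · apply (Continuous.integrableOn_Icc (by fun_prop)).mono_set Ioo_subset_Icc_self
  · exact measurableSet_Ioo
  · intro x hx
    have : x ^ 2 < 1 := by nlinarith [hx.1, hx.2]
    linarith

lemma exists_K (c : ENNReal) (hc : c < ENNReal.ofReal (48 / 65)) :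
    ∃ n, c < volume (f '' K n) := by
  have h1 : volume (f '' E) = ⨆ n, volume (f '' K n) := by
    rw [← iUnion_K, image_iUnion]
    apply Directed.measure_iUnion
    apply Monotone.directed_le
    intro m n hmn
    exact image_mono (K_mono hmn)
  have h2 : c < volume (f '' E) := by
    apply hc.trans_le
    rw [← volume_P]
    exact measure_mono P_subset
  rw [h1] at h2
  exact lt_iSup_iff.1 h2

end Pool.Agent.R252.HB
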