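import Mathlib
import Pool.Agent.R252.HB.Lower

namespace Pool.Agent.R252.HB

open Complex Metric Set MeasureTheory Filter Topology

lemma det_toSpan (c : ℂ) :
    (((1 : ℂ →L[ℂ] ℂ).smulRight c).restrictScalars ℝ).det = ‖c‖ ^ 2 := by
  simp [ContinuousLinearMap.det, LinearMap.det_restrictScalars,
      Algebra.norm_complex_eq, Complex.normSq_eq_norm_sq]

/-- the sector -/
def S : Set ℂ := {h | 0 < h.re ∧ |h.im| < (8 / 15) * h.re}

lemma S_meas : MeasurableSet S := by
  have h1 : IsOpen {h : ℂ | 0 < h.re} := isOpen_lt continuous_const Complex.continuous_re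
  have h2 : IsOpen {h : ℂ | |h.im| < (8 / 15) * h.re} := isOpen_lt (by fun_prop) (by fun_prop)
  exact (h1.inter h2).measurableSet

lemma cayley_mem {z : ℂ} (hz : z ∈ E) : (1 + z) / (1 - z) ∈ S := by
  have hz1 : ‖z‖ < 1 := by simpa using E_subset_ball hz
  have hne : 1 - z ≠ 0 := by
    intro h
    have : z = 1 := by linear_combination -h
    rw [this] at hz1; simp at hz1
  have hN : 0 < ‖1 - z‖ ^ 2 := by
    have := norm_pos_iff.2 hne
    positivity
  set h := (1 + z) / (1 - z) with hh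
  have hmul : h * (1 - z) = 1 + z := by rw [hh]; field_simp
  have e1 : h * ((‖1 - z‖ ^ 2 : ℝ) : ℂ) = (1 + z) * (starRingEnd ℂ) (1 - z) := by
    rw [← hmul, mul_assoc, Complex.mul_conj, Complex.normSq_eq_norm_sq]
  have hre : h.re * ‖1 - z‖ ^ 2 = 1 - ‖z‖ ^ 2 := by
    have e2 := congrArg Complex.re e1
    rw [Complex.re_mul_ofReal] at e2
    rw [e2, Complex.sq_norm, Complex.normSq_apply]
    simp
    ring
  have him : h.im * ‖1 - z‖ ^ 2 = 2 * z.im := by
    have e2 := congrArg Complex.im e1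
    rw [Complex.im_mul_ofReal] at e2
    rw [e2]
    simp
    ring
  have hpos : 0 < h.re := by
    have : 0 < h.re * ‖1 - z‖ ^ 2 := by
      rw [hre]; nlinarith [norm_nonneg z]
    exact (mul_pos_iff_of_pos_right hN).1 this
  refine ⟨hpos, ?_⟩
  have himabs : |h.im| * ‖1 - z‖ ^ 2 = 2 * |z.im| := by
    have := congrArg abs him
    rw [abs_mul, abs_of_pos hN, abs_mul] at this
    simpa using this
  have hzE : ‖z‖ ^ 2 + (15 / 4) * |z.im| < 1 := hz
  have : |h.im| * ‖1 - z‖ ^ 2 < (8 / 15) * h.re * ‖1 - z‖ ^ 2 := by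
    rw [himabs, mul_assoc, hre]; linarith
  exact lt_of_mul_lt_mul_right this hN.le

/-- the integral over the sector -/
lemma lintegral_S (B : ℝ) (hB : 0 < B) :
    ∫⁻ h in S, ENNReal.ofReal (4 * B ^ 2 / (h.re + B) ^ 4) = ENNReal.ofReal (32 / 45) := by
  set F : ℝ → ENNReal := fun x => ENNReal.ofReal (4 * B ^ 2 / (x + B) ^ 4) with hF
  have hFm : Measurable F := by
    rw [hF]; fun_prop
  set T : Set (ℝ × ℝ) := {p | 0 < p.1 ∧ |p.2| < (8 / 15) * p.1} with hT
  have hTm : MeasurableSet T := by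
    have h1 : IsOpen {p : ℝ × ℝ | 0 < p.1} := isOpen_lt continuous_const continuous_fst
    have h2 : IsOpen {p : ℝ × ℝ | |p.2| < (8 / 15) * p.1} := isOpen_lt (by fun_prop) (by fun_prop)
    exact (h1.inter h2).measurableSet
  have hFm2 : Measurable (T.indicator (fun p : ℝ × ℝ => F p.1)) :=
    (hFm.comp measurable_fst).indicator hTm
  have h1 : ∫⁻ h in S, F h.re = ∫⁻ p in T, F p.1 := by
    have hST : S = Complex.measurableEquivRealProd ⁻¹' T := by
      ext z; rfl
    rw [hST]
    have := Complex.volume_preserving_equiv_real_prod.setLIntegral_comp_preimage hTm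
      (f := fun p : ℝ × ℝ => F p.1) (hFm.comp measurable_fst)
    exact this
  have h2 : ∫⁻ p in T, F p.1 = ∫⁻ x in Ioi (0 : ℝ), ENNReal.ofReal ((16 / 15) * x) * F x := by
    rw [← lintegral_indicator hTm, MeasureTheory.Measure.volume_eq_prod, lintegral_prod _
      hFm2.aemeasurable, ← lintegral_indicator measurableSet_Ioi]
    apply lintegral_congr
    intro x
    by_cases hx : 0 < x
    · rw [indicator_of_mem (by exact hx)]
      have : (fun y => T.indicator (fun p : ℝ × ℝ => F p.1) (x, y))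
          = (Ioo (-((8 / 15) * x)) ((8 / 15) * x)).indicator (fun _ => F x) := by
        ext y
        by_cases hy : |y| < (8 / 15) * x
        · have hy' : y ∈ Ioo (-((8 / 15) * x)) ((8 / 15) * x) := abs_lt.1 hy
          rw [indicator_of_mem (show (x, y) ∈ T from ⟨hx, hy⟩), indicator_of_mem hy']
        · have hy' : y ∉ Ioo (-((8 / 15) * x)) ((8 / 15) * x) := fun h => hy (abs_lt.2 h)
          rw [indicator_of_notMem (show (x, y) ∉ T from fun h => hy h.2),
            indicator_of_notMem hy']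
      rw [this, lintegral_indicator measurableSet_Ioo, lintegral_const, Measure.restrict_apply_univ,
        Real.volume_Ioo, mul_comm]
      congr 2
      ring
    · rw [indicator_of_notMem (by exact hx)]
      have : (fun y => T.indicator (fun p : ℝ × ℝ => F p.1) (x, y)) = fun _ => 0 := by
        ext y
        rw [indicator_of_notMem (show (x, y) ∉ T from fun h => hx h.1)]
      rw [this, lintegral_const, zero_mul]
  have h3 : ∀ x ∈ Ioi (0 : ℝ), ENNReal.ofReal ((16 / 15) * x) * F x
      = ENNReal.ofReal ((64 / 15) * B ^ 2 * (x / (x + B) ^ 4)) := by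
    intro x hx
    have hx' : 0 < x := hx
    rw [hF]
    simp only
    rw [← ENNReal.ofReal_mul (by positivity)]
    congr 1
    ring
  set G : ℝ → ℝ := fun x => (64 / 15) * B ^ 2 * (-1 / (2 * (x + B) ^ 2) + B / (3 * (x + B) ^ 3))
    with hG
  have hderiv : ∀ x ∈ Ici (0 : ℝ), HasDerivAt G ((64 / 15) * B ^ 2 * (x / (x + B) ^ 4)) x := by
    intro x hx
    have hx' : 0 ≤ x := hx
    have hxB : x + B ≠ 0 := by positivity
    have e0 : HasDerivAt (fun y : ℝ => y + B) 1 x := (hasDerivAt_id x).add_const B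
    have e1 : HasDerivAt (fun y : ℝ => (y + B) ^ 2) (((2 : ℕ) : ℝ) * (x + B) ^ (2 - 1) * 1) x :=
      e0.pow 2
    have e2 : HasDerivAt (fun y : ℝ => (y + B) ^ 3) (((3 : ℕ) : ℝ) * (x + B) ^ (3 - 1) * 1) x :=
      e0.pow 3
    have e3 := (hasDerivAt_const x (-1 : ℝ)).fun_div (e1.const_mul 2) (by positivity)
    have e4 := (hasDerivAt_const x B).fun_div (e2.const_mul 3) (by positivity)
    have e5 := (e3.add e4).const_mul ((64 / 15) * B ^ 2)
    refine HasDerivAt.congr_deriv e5 ?_
    push_cast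
    field_simp
    ring
  have hlim : Tendsto G atTop (𝓝 0) := by
    have a0 : Tendsto (fun x : ℝ => x + B) atTop atTop := tendsto_atTop_add_const_right _ _ tendsto_id
    have a1 : Tendsto (fun x : ℝ => (x + B) ^ 2) atTop atTop :=
      (tendsto_pow_atTop two_ne_zero).comp a0
    have a2 : Tendsto (fun x : ℝ => (x + B) ^ 3) atTop atTop :=
      (tendsto_pow_atTop three_ne_zero).comp a0
    have a3 : Tendsto (fun x : ℝ => -1 / (2 * (x + B) ^ 2)) atTop (𝓝 0) :=
      tendsto_const_nhds.div_atTop (a1.const_mul_atTop two_pos)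
    have a4 : Tendsto (fun x : ℝ => B / (3 * (x + B) ^ 3)) atTop (𝓝 0) :=
      tendsto_const_nhds.div_atTop (a2.const_mul_atTop three_pos)
    have a5 := (a3.add a4).const_mul ((64 / 15) * B ^ 2)
    simpa using a5
  have hpos : ∀ x ∈ Ioi (0 : ℝ), 0 ≤ (64 / 15) * B ^ 2 * (x / (x + B) ^ 4) := by
    intro x hx
    have hx' : 0 < x := hx
    positivity
  have h4 := integral_Ioi_of_hasDerivAt_of_nonneg' hderiv hpos hlim
  have h5 := integrableOn_Ioi_deriv_of_nonneg' hderiv hpos hlim
  have h6 : ∫⁻ x in Ioi (0 : ℝ), ENNReal.ofReal ((64 / 15) * B ^ 2 * (x / (x + B) ^ 4))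
      = ENNReal.ofReal (32 / 45) := by
    rw [← ofReal_integral_eq_lintegral_ofReal h5
      ((ae_restrict_iff' measurableSet_Ioi).2 (Eventually.of_forall hpos)), h4]
    congr 1
    rw [hG]
    simp only [zero_add]
    field_simp
    norm_num
  rw [h1, h2, setLIntegral_congr_fun measurableSet_Ioi h3, h6]

/-- the automorphism in the half-plane coordinate -/
lemma auto_eq {a z : ℂ} (ha : ‖a‖ < 1) (hz : ‖z‖ < 1) (u : ℂ) :
    u * ((z - a) / (1 - (starRingEnd ℂ) a * z)) =
      (u * ((1 - a) / (1 - (starRingEnd ℂ) a))) *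
        (((1 + z) / (1 - z) - (1 + a) / (1 - a)) /
          ((1 + z) / (1 - z) + (starRingEnd ℂ) ((1 + a) / (1 - a)))) := by
  have h1 : 1 - z ≠ 0 := by
    intro h
    have : z = 1 := by linear_combination -h
    rw [this] at hz; simp at hz
  have h2 : 1 - a ≠ 0 := by
    intro h
    have : a = 1 := by linear_combination -h
    rw [this] at ha; simp at ha
  have h3 : 1 - (starRingEnd ℂ) a ≠ 0 := by
    intro h
    have : (starRingEnd ℂ) a = 1 := by linear_combination -h
    have := congrArg norm this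
    rw [Complex.norm_conj] at this
    rw [this] at ha; simp at ha
  have h4 : 1 - (starRingEnd ℂ) a * z ≠ 0 := by
    intro h
    have : (starRingEnd ℂ) a * z = 1 := by linear_combination -h
    have := congrArg norm this
    rw [norm_mul, Complex.norm_conj, norm_one] at this
    nlinarith [norm_nonneg a, norm_nonneg z]
  rw [map_div₀, map_add, map_sub, map_one]
  have h5 : (1 + z) / (1 - z) - (1 + a) / (1 - a) = 2 * (z - a) / ((1 - z) * (1 - a)) := by
    field_simp; ring
  have h6 : (1 + z) / (1 - z) + (1 + (starRingEnd ℂ) a) / (1 - (starRingEnd ℂ) a)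
      = 2 * (1 - (starRingEnd ℂ) a * z) / ((1 - z) * (1 - (starRingEnd ℂ) a)) := by
    field_simp; ring
  rw [h5, h6]
  field_simp

lemma volume_psi (C b : ℂ) (hC : ‖C‖ = 1) (hb : 0 < b.re) :
    volume ((fun h : ℂ => C * ((h - b) / (h + (starRingEnd ℂ) b))) '' S)
      ≤ ENNReal.ofReal (32 / 45) := by
  have hre : ∀ h ∈ S, 0 < (h + (starRingEnd ℂ) b).re := by
    intro h hh
    have : 0 < h.re := hh.1
    simp; linarith
  have hne : ∀ h ∈ S, h + (starRingEnd ℂ) b ≠ 0 := by
    intro h hh h0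
    have := hre h hh
    rw [h0] at this; simp at this
  have hder : ∀ h ∈ S, HasDerivAt (fun h : ℂ => C * ((h - b) / (h + (starRingEnd ℂ) b)))
      (C * ((2 * b.re : ℝ) / (h + (starRingEnd ℂ) b) ^ 2)) h := by
    intro h hh
    have hn := hne h hh
    have e1 : HasDerivAt (fun h : ℂ => h - b) 1 h := (hasDerivAt_id h).sub_const b
    have e2 : HasDerivAt (fun h : ℂ => h + (starRingEnd ℂ) b) 1 h :=
      (hasDerivAt_id h).add_const _
    have e3 := (e1.fun_div e2 hn).const_mul C
    refine HasDerivAt.congr_deriv e3 ?_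
    have : ((2 * b.re : ℝ) : ℂ) = b + (starRingEnd ℂ) b := by
      rw [Complex.add_conj]
    rw [this]
    congr 2
    ring
  have hf' : ∀ h ∈ S, HasFDerivWithinAt (fun h : ℂ => C * ((h - b) / (h + (starRingEnd ℂ) b)))
      (((1 : ℂ →L[ℂ] ℂ).smulRight (C * ((2 * b.re : ℝ) / (h + (starRingEnd ℂ) b) ^ 2))).restrictScalars ℝ)
      S h := by
    intro h hh
    exact ((hder h hh).hasFDerivAt.restrictScalars ℝ).hasFDerivWithinAt
  apply (addHaar_image_le_lintegral_abs_det_fderiv volume S_meas hf').trans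
  rw [← lintegral_S b.re hb]
  apply setLIntegral_mono' S_meas
  intro h hh
  apply ENNReal.ofReal_le_ofReal
  rw [det_toSpan, abs_of_nonneg (by positivity), norm_mul, hC, one_mul, norm_div, norm_pow,
    Complex.norm_real, Real.norm_of_nonneg (by positivity), div_pow]
  have h1 : h.re + b.re ≤ ‖h + (starRingEnd ℂ) b‖ := by
    have : (h + (starRingEnd ℂ) b).re ≤ ‖h + (starRingEnd ℂ) b‖ := Complex.re_le_norm _
    simpa using this
  have h0 : 0 < h.re + b.re := by have := hh.1; linarith
  have h2 : (h.re + b.re) ^ 4 ≤ (‖h + (starRingEnd ℂ) b‖ ^ 2) ^ 2 := by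
    rw [← pow_mul]; exact pow_le_pow_left₀ h0.le h1 _
  have h3 : (2 * b.re) ^ 2 = 4 * b.re ^ 2 := by ring
  rw [h3]
  apply div_le_div_of_nonneg_left (by positivity) (by positivity) h2

lemma volume_auto (a : ℂ) (ha : ‖a‖ < 1) (u : ℂ) (hu : ‖u‖ = 1) :
    volume ((fun z : ℂ => u * ((z - a) / (1 - (starRingEnd ℂ) a * z))) '' E)
      ≤ ENNReal.ofReal (32 / 45) := by
  set C : ℂ := u * ((1 - a) / (1 - (starRingEnd ℂ) a)) with hC
  set b : ℂ := (1 + a) / (1 - a) with hb
  have h2 : 1 - a ≠ 0 := by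
    intro h
    have : a = 1 := by linear_combination -h
    rw [this] at ha; simp at ha
  have hCn : ‖C‖ = 1 := by
    have : ‖1 - (starRingEnd ℂ) a‖ = ‖1 - a‖ := by
      rw [← Complex.norm_conj (1 - a), map_sub, map_one]
    rw [hC, norm_mul, hu, one_mul, norm_div, this, div_self]
    exact norm_ne_zero_iff.2 h2
  have hbre : 0 < b.re := by
    have hN : 0 < ‖1 - a‖ ^ 2 := by
      have := norm_pos_iff.2 h2
      positivity
    have hmul : b * (1 - a) = 1 + a := by rw [hb]; field_simp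
    have e1 : b * ((‖1 - a‖ ^ 2 : ℝ) : ℂ) = (1 + a) * (starRingEnd ℂ) (1 - a) := by
      rw [← hmul, mul_assoc, Complex.mul_conj, Complex.normSq_eq_norm_sq]
    have hre : b.re * ‖1 - a‖ ^ 2 = 1 - ‖a‖ ^ 2 := by
      have e2 := congrArg Complex.re e1
      rw [Complex.re_mul_ofReal] at e2
      rw [e2, Complex.sq_norm, Complex.normSq_apply]
      simp
      ring
    have : 0 < b.re * ‖1 - a‖ ^ 2 := by
      rw [hre]; nlinarith [norm_nonneg a]
    exact (mul_pos_iff_of_pos_right hN).1 this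
  refine le_trans (measure_mono ?_) (volume_psi C b hCn hbre)
  rintro _ ⟨z, hz, rfl⟩
  refine ⟨(1 + z) / (1 - z), cayley_mem hz, ?_⟩
  have hz1 : ‖z‖ < 1 := by simpa using E_subset_ball hz
  exact (auto_eq ha hz1 u).symm

end Pool.Agent.R252.HB
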